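import Pool.Agent.TBP.StmtsC
import Pool.Agent.Helper10_TBP.CVX

set_option autoImplicit false

/-! Squad TBP, row CX2: the inequality CVX for all exponents `0 < r ≤ rho`. -/

namespace Pool.Agent.TBP.H27

open Finset Pool.Agent.TBP

theorem cx2 : Cx2Stmt := by
  intro r a _ hr'
  have hc := Pool.Agent.TBP.H10.cvx a
  have hρr : 0 ≤ rho - r := sub_nonneg.2 hr'
  have ha : (0 : ℝ) < (a : ℝ) + 1 := by positivity
  have hpos : 0 < ((a : ℝ) + 1) ^ (rho - r) := Real.rpow_pos_of_pos ha _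
  have h1 : ∑ i ∈ range a, ((i : ℝ) + 1) ^ rho ≤
      ((a : ℝ) + 1) ^ (rho - r) * ∑ i ∈ range a, ((i : ℝ) + 1) ^ r := by
    rw [Finset.mul_sum]
    refine Finset.sum_le_sum fun i hi => ?_
    have hi0 : (0 : ℝ) < (i : ℝ) + 1 := by positivity
    have hia : (i : ℝ) + 1 ≤ (a : ℝ) + 1 := by
      have h2 : i ≤ a := (Finset.mem_range.1 hi).le
      have h3 : (i : ℝ) ≤ (a : ℝ) := by exact_mod_cast h2
      linarith
    have h4 : ((i : ℝ) + 1) ^ rho = ((i : ℝ) + 1) ^ (rho - r) * ((i : ℝ) + 1) ^ r := by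
      rw [← Real.rpow_add hi0, sub_add_cancel]
    rw [h4]
    exact mul_le_mul_of_nonneg_right (Real.rpow_le_rpow hi0.le hia hρr)
      (Real.rpow_nonneg hi0.le r)
  have h5 : ((a : ℝ) + 1) ^ rho = ((a : ℝ) + 1) ^ (rho - r) * ((a : ℝ) + 1) ^ r := by
    rw [← Real.rpow_add ha, sub_add_cancel]
  have h6 : ((a : ℝ) + 1) ^ (rho - r) * ((a : ℝ) * ((a : ℝ) + 1) ^ r) ≤
      ((a : ℝ) + 1) ^ (rho - r) * (Real.exp 1 * ∑ i ∈ range a, ((i : ℝ) + 1) ^ r) := by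
    calc ((a : ℝ) + 1) ^ (rho - r) * ((a : ℝ) * ((a : ℝ) + 1) ^ r)
        = (a : ℝ) * ((a : ℝ) + 1) ^ rho := by rw [h5]; ring
      _ ≤ Real.exp 1 * ∑ i ∈ range a, ((i : ℝ) + 1) ^ rho := hc
      _ ≤ Real.exp 1 * (((a : ℝ) + 1) ^ (rho - r) * ∑ i ∈ range a, ((i : ℝ) + 1) ^ r) :=
          mul_le_mul_of_nonneg_left h1 (Real.exp_pos 1).le
      _ = ((a : ℝ) + 1) ^ (rho - r) * (Real.exp 1 * ∑ i ∈ range a, ((i : ℝ) + 1) ^ r) := by ring
  exact le_of_mul_le_mul_left h6 hpos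

end Pool.Agent.TBP.H27
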